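import Mathlib
import Pool.Agent.Y205.AV.Large
import Pool.Agent.Y939.NC.Reg
import Pool.Agent.TH442.NF.Fin
import Pool.Agent.TH603.Cut.Deg

set_option autoImplicit false

/-!
# Nef classes with a large or good standard form are non-special

Let `P 1, …, P n`, `n ≥ 4`, be very general points of the complex projective plane, and let `(d; w)` be
a nef class on the blow-up `X_n`. Finitely many reflections in classes `H - E_i - E_j - E_k` carry
`(d; w)` to a standard class. If some class `(d'; w')` to which `(d; w)` can be carried is `Large`, or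
below a regular vector, or standard and `Good`, then `(d; w)` is non-special.

A class is `Large` (`Pool.Agent.Y205.AV.Large`) if there are a set `S` of points and numbers `μ`, `s`
such that `w i ≤ μ` for `i ∈ S`, `w i ≤ 1` for `i ∉ S`, and with
`χ = (d + 2).choose 2 - ∑_S (w i + 1).choose 2`
* `∑_S w i + 4 |χ| ≥ 25000 (μ + 1) ^ 2`, or
* `|χ| ≥ ∑_S w i + 26 (μ + 1) ^ 2`, or
* `∑_S w i ^ 2 ≥ 40000 s μ ^ 2`, `S` is not empty, `w i ≥ 1` on `S`, with at most `s` values there.
-/

namespace Pool.Agent.Results.MP_0f5763_ag.NefLargeForms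

open MvPolynomial
open Pool.Agent.Y536.SH (Standard)
open Pool.Agent.Y205.AV (Large)
open Pool.Agent.Y939.NC (Good Below)

/-- The homogeneous ideal of the point `(p 0 : p 1 : 1)`. -/
noncomputable def pt (p : Fin 2 → ℂ) : Ideal (MvPolynomial (Fin 3) ℂ) :=
  Ideal.span {X 0 - C (p 0) * X 2, X 1 - C (p 1) * X 2}

/-- The class `(d; w)` is nef at the points `P`: it meets every irreducible curve nonnegatively. An
irreducible curve other than the exceptional ones is given by an irreducible form `G` of degree `e`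
with multiplicity exactly `u i` at `P i`. -/
def Nef {n : ℕ} (P : Fin n → Fin 2 → ℂ) (d : ℕ) (w : Fin n → ℕ) : Prop :=
  ∀ (G : MvPolynomial (Fin 3) ℂ) (e : ℕ) (u : Fin n → ℕ), Irreducible G → G.IsHomogeneous e →
    (∀ i, G ∈ pt (P i) ^ (u i) ∧ G ∉ pt (P i) ^ (u i + 1)) → ∑ i, w i * u i ≤ d * e

/-- The linear system `(d; w)` at the points `P` is non-special: the space of forms of degree `d`
vanishing to order at least `w i` at `P i` has dimension
`max (0, (d + 1) (d + 2) / 2 - ∑ w i (w i + 1) / 2)`. -/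
def NonSpecial {n : ℕ} (P : Fin n → Fin 2 → ℂ) (d : ℕ) (w : Fin n → ℕ) : Prop :=
  Module.finrank ℂ
    ↥(homogeneousSubmodule (Fin 3) ℂ d ⊓
      Submodule.restrictScalars ℂ (⨅ i : Fin n, pt (P i) ^ (w i)))
  = Nat.choose (d + 2) 2 - ∑ i, Nat.choose (w i + 1) 2

/-- The reflection of the class `a = (d; w)`, `d H - ∑ w l E l`, in the class
`H - E (i 0) - E (i 1) - E (i 2)`: with `δ = d - w (i 0) - w (i 1) - w (i 2)`, the numbers
`d`, `w (i 0)`, `w (i 1)`, `w (i 2)` are increased by `δ`. -/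
def reflect {n : ℕ} (i : Fin 3 → Fin n) (a : ℤ × (Fin n → ℤ)) : ℤ × (Fin n → ℤ) :=
  (a.1 + (a.1 - a.2 (i 0) - a.2 (i 1) - a.2 (i 2)),
    fun l => a.2 l + if l = i 0 ∨ l = i 1 ∨ l = i 2 then a.1 - a.2 (i 0) - a.2 (i 1) - a.2 (i 2)
      else 0)

/-- Finitely many reflections carry `(d; w)` to `(d'; w')`. -/
def Carries {n : ℕ} (d : ℕ) (w : Fin n → ℕ) (d' : ℕ) (w' : Fin n → ℕ) : Prop :=
  Relation.ReflTransGen
    (fun a b : ℤ × (Fin n → ℤ) => ∃ i : Fin 3 → Fin n, Function.Injective i ∧ b = reflect i a)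
    ((d : ℤ), fun l => (w l : ℤ)) ((d' : ℤ), fun l => (w' l : ℤ))

/-- `Very n Q`: the statement `Q` holds for all `n`-tuples of points outside countably many
hypersurfaces. -/
def Very (n : ℕ) (Q : (Fin n → Fin 2 → ℂ) → Prop) : Prop :=
  ∃ F : ℕ → MvPolynomial (Fin n × Fin 2) ℂ, (∀ j, F j ≠ 0) ∧ ∀ P : Fin n → Fin 2 → ℂ,
    (∀ j, MvPolynomial.eval (fun ij : Fin n × Fin 2 => P ij.1 ij.2) (F j) ≠ 0) → Q P

open Pool.Agent.TH442.NF in
/-- Every nef class is carried to a standard one. -/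
theorem nef_std {K : Type} [Field K] [CharZero K] {n : ℕ} : ∀ (d : ℕ) {w : Fin n → ℕ}
    {P : Fin n → Fin 2 → K}, AlgebraicIndependent ℚ (fun ij : Fin n × Fin 2 => P ij.1 ij.2) →
    NefAt P d w → ∃ (d' : ℕ) (w' : Fin n → ℕ),
      Relation.ReflTransGen Step (cls d w) (cls d' w') ∧ Standard d' w' := by
  intro d
  induction d using Nat.strong_induction_on with
  | _ d ih =>
    intro w P hP hN
    by_cases hs : Standard d w
    · exact ⟨d, w, Relation.ReflTransGen.refl, hs⟩
    · unfold Pool.Agent.Y536.SH.Standard at hs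
      push Not at hs
      obtain ⟨i, j, k, hij, hik, hjk, h⟩ := hs
      have hinj : Function.Injective (![i, j, k] : Fin 3 → Fin n) := by
        intro a b hab
        fin_cases a <;> fin_cases b <;> simp_all
      have hst : Relation.ReflTransGen Step (cls d w) (refl ![i, j, k] (cls d w)) :=
        Relation.ReflTransGen.single ⟨![i, j, k], hinj, rfl⟩
      obtain ⟨P', d1, w1, hP', hN', he, -, -⟩ := chain hP hN hst
      have h1 : ((d1 : ℕ) : ℤ) = (d : ℤ) + ((d : ℤ) - w i - w j - w k) := by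
        have h2 := congrArg Prod.fst he
        exact h2.symm
      have h3 : d1 < d := by omega
      obtain ⟨d', w', h4, h5⟩ := ih d1 h3 hP' hN'
      rw [he] at hst
      exact ⟨d', w', hst.trans h4, h5⟩

theorem result : ∃ N0 : ℕ, ∀ n : ℕ, 4 ≤ n → Very n fun P => ∀ (d : ℕ) (w : Fin n → ℕ), Nef P d w →
    (∃ (d' : ℕ) (w' : Fin n → ℕ), Carries d w d' w' ∧ Standard d' w') ∧
    ∀ (d' : ℕ) (w' : Fin n → ℕ), Carries d w d' w' →
      (Large d' w' ∨ Below N0 d' w' ∨ (Standard d' w' ∧ Good N0 d' w')) → NonSpecial P d w := by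
  have hNef : ∀ {n : ℕ} {P : Fin n → Fin 2 → ℂ} {d : ℕ} {w : Fin n → ℕ}, Nef P d w →
      Pool.Agent.TH442.NF.NefAt P d w := by
    intro n P d w h
    rw [Pool.Agent.TH442.NF.nefAt_iff]
    intro G e u hG
    have h1 := h G e u hG.irreducible hG.homogeneous hG.mult
    unfold Pool.Agent.TH167.SHDefs.inter
    have h2 : ((∑ i, w i * u i : ℕ) : ℤ) ≤ ((d * e : ℕ) : ℤ) := by exact_mod_cast h1
    push_cast at h2
    omega
  obtain ⟨N0, hN0⟩ := Pool.Agent.Y939.NC.reg_exp
  refine ⟨N0, fun n hn => ?_⟩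
  obtain ⟨F, hF, hF'⟩ := Pool.Agent.TH603.Cut.exists_family (Fin n × Fin 2)
  refine ⟨F, hF, fun P hP d w hN => ⟨nef_std d (hF' _ hP) (hNef hN), fun d' w' hc h => ?_⟩⟩
  refine Pool.Agent.TH442.NF.of_chain (hF' _ hP) (hNef hN) hc fun P' hP' => ?_
  rcases h with h | h | ⟨hs, h⟩
  · exact Pool.Agent.Y205.AV.large_exp h hP'
  · exact Pool.Agent.Y939.NC.below_exp hN0 h hP'
  · exact Pool.Agent.Y939.NC.good_exp hN0 hn hs h hP'

end Pool.Agent.Results.MP_0f5763_ag.NefLargeForms
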